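import Mathlib
import Pool.Agent.helper42.Fdom.Defs

/-!
# Equality in the bound FDOM(G) ≤ δ(G) + 1 encodes fractional colourability

For a graph `H` and `m ≥ 1` let `attach H m` be obtained from `H` by adding, for every edge `uv`
of `H`, a clique of `m` new vertices joined to `u` and to `v`. Its minimum degree is `δ = m + 1`,
its fractional domatic number is `δ + 1` exactly when the fractional chromatic number of `H` is
at most `δ + 1`, and its domatic number is `δ + 1` exactly when `H` is `(δ + 1)`-colourable.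
-/

set_option autoImplicit false

namespace Pool.Agent.Results.MP_64dcad_co.FractionalColouring

open Pool.Agent.helper42.Fdom

variable {W : Type}

/-- The graph obtained from `H` by adding, for every edge `uv` of `H`, a clique of `m` new
vertices, each joined to both `u` and `v`. -/
def attach (H : SimpleGraph W) (m : ℕ) : SimpleGraph (W ⊕ (H.edgeSet × Fin m)) where
  Adj x y :=
    match x, y with
    | Sum.inl u, Sum.inl v => H.Adj u v
    | Sum.inl u, Sum.inr p => u ∈ (p.1 : Sym2 W)
    | Sum.inr p, Sum.inl u => u ∈ (p.1 : Sym2 W)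
    | Sum.inr p, Sum.inr q => p.1 = q.1 ∧ p.2 ≠ q.2
  symm := ⟨by
    intro x y h
    rcases x with u | p <;> rcases y with v | q
    · exact SimpleGraph.Adj.symm h
    · exact h
    · exact h
    · exact ⟨h.1.symm, h.2.symm⟩⟩
  loopless := ⟨by
    intro x h
    rcases x with u | p
    · exact H.loopless.irrefl _ h
    · exact h.2 rfl⟩

section

open Classical

variable (H : SimpleGraph W) (m : ℕ)

/-- The closed neighbourhood of the new vertices at an edge. -/
noncomputable def nbhd (e : H.edgeSet) (u v : W) : Finset (W ⊕ (H.edgeSet × Fin m)) :=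
  {Sum.inl u, Sum.inl v} ∪ (Finset.univ : Finset (Fin m)).image fun j => Sum.inr (e, j)

lemma mem_nbhd {e : H.edgeSet} {u v : W} {x : W ⊕ (H.edgeSet × Fin m)} :
    x ∈ nbhd H m e u v ↔ x = Sum.inl u ∨ x = Sum.inl v ∨ ∃ j, x = Sum.inr (e, j) := by
  unfold nbhd
  simp only [Finset.mem_union, Finset.mem_insert, Finset.mem_singleton, Finset.mem_image,
    Finset.mem_univ, true_and]
  constructor
  · rintro ((h | h) | ⟨j, h⟩)
    · exact Or.inl h
    · exact Or.inr (Or.inl h)
    · exact Or.inr (Or.inr ⟨j, h.symm⟩)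
  · rintro (h | h | ⟨j, h⟩)
    · exact Or.inl (Or.inl h)
    · exact Or.inl (Or.inr h)
    · exact Or.inr ⟨j, h.symm⟩

lemma card_nbhd {e : H.edgeSet} {u v : W} (huv : u ≠ v) : (nbhd H m e u v).card = m + 2 := by
  unfold nbhd
  rw [Finset.card_union_of_disjoint, Finset.card_image_of_injective, Finset.card_univ,
    Fintype.card_fin, Finset.card_pair]
  · omega
  · intro h; exact huv (Sum.inl.inj h)
  · intro a b h
    simpa using h
  · rw [Finset.disjoint_left]
    intro x hx hx'
    simp only [Finset.mem_insert, Finset.mem_singleton] at hx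
    simp only [Finset.mem_image, Finset.mem_univ, true_and] at hx'
    obtain ⟨j, rfl⟩ := hx'
    rcases hx with h | h <;> cases h

/-- Every dominating set meets the closed neighbourhood of a new vertex. -/
lemma meets_nbhd (hm : 1 ≤ m) {e : H.edgeSet} {u v : W} (he : (e : Sym2 W) = s(u, v))
    {D : Set (W ⊕ (H.edgeSet × Fin m))} (hD : Dominating (attach H m) D) :
    ∃ y ∈ nbhd H m e u v, y ∈ D := by
  by_cases h : (Sum.inr (e, ⟨0, hm⟩) : W ⊕ (H.edgeSet × Fin m)) ∈ D
  · exact ⟨_, (mem_nbhd H m).mpr (Or.inr (Or.inr ⟨_, rfl⟩)), h⟩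
  · obtain ⟨y, hy, hadj⟩ := hD _ h
    refine ⟨y, (mem_nbhd H m).mpr ?_, hy⟩
    rcases y with w | p
    · have hw : w ∈ (e : Sym2 W) := hadj
      rw [he, Sym2.mem_iff] at hw
      rcases hw with rfl | rfl
      · exact Or.inl rfl
      · exact Or.inr (Or.inl rfl)
    · have hp : e = p.1 ∧ _ := hadj
      refine Or.inr (Or.inr ⟨p.2, ?_⟩)
      rw [hp.1]

/-- The two consequences of equality: constant loads on `W`, independent traces on `W`. -/
lemma equality_consequences (hm : 1 ≤ m) (hH : ∀ u, ∃ v, H.Adj u v) {n L : ℕ}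
    (F : Fin n → Set (W ⊕ (H.edgeSet × Fin m))) (hF : ∀ i, Dominating (attach H m) (F i))
    (hL : ∀ y, {i : Fin n | y ∈ F i}.ncard ≤ L) (hn : n = (m + 2) * L) :
    (∀ u : W, {i : Fin n | (Sum.inl u : W ⊕ (H.edgeSet × Fin m)) ∈ F i}.ncard = L) ∧
      ∀ i, ∀ u v : W, H.Adj u v → Sum.inl u ∈ F i → Sum.inl v ∈ F i → False := by
  have key : ∀ u v, ∀ huv : H.Adj u v,
      (∀ y ∈ nbhd H m ⟨s(u, v), huv⟩ u v, {i : Fin n | y ∈ F i}.ncard = L) ∧
      ∀ i, ∀ y ∈ nbhd H m ⟨s(u, v), huv⟩ u v, ∀ z ∈ nbhd H m ⟨s(u, v), huv⟩ u v,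
        y ∈ F i → z ∈ F i → y = z := by
    intro u v huv
    apply equality_case
    · intro i
      exact meets_nbhd H m hm rfl (hF i)
    · intro y _; exact hL y
    · rw [card_nbhd H m huv.ne]; exact hn
  constructor
  · intro u
    obtain ⟨v, huv⟩ := hH u
    exact (key u v huv).1 _ ((mem_nbhd H m).mpr (Or.inl rfl))
  · intro i u v huv hu hv
    have h := (key u v huv).2 i _ ((mem_nbhd H m).mpr (Or.inl rfl)) _
      ((mem_nbhd H m).mpr (Or.inr (Or.inl rfl))) hu hv
    exact huv.ne (Sum.inl.inj h)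

/-- The general upper bound. -/
lemma upper (hm : 1 ≤ m) {u v : W} (huv : H.Adj u v) {n L : ℕ}
    (F : Fin n → Set (W ⊕ (H.edgeSet × Fin m))) (hF : ∀ i, Dominating (attach H m) (F i))
    (hL : ∀ y, {i : Fin n | y ∈ F i}.ncard ≤ L) : n ≤ (m + 2) * L := by
  have h := card_le_sum_load F (nbhd H m ⟨s(u, v), huv⟩ u v)
    (fun i => meets_nbhd H m hm rfl (hF i))
  refine h.trans ?_
  calc _ ≤ ∑ _y ∈ nbhd H m ⟨s(u, v), huv⟩ u v, L := Finset.sum_le_sum fun y _ => hL y
    _ = (m + 2) * L := by rw [Finset.sum_const, smul_eq_mul, card_nbhd H m huv.ne]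

lemma fdom_upper (hm : 1 ≤ m) {u v : W} (huv : H.Adj u v) {n : ℕ} (hn : 0 < n)
    (F : Fin n → Set (W ⊕ (H.edgeSet × Fin m))) (hF : ∀ i, Dominating (attach H m) (F i)) :
    (n : ℚ) / (maxLoad F : ℚ) ≤ ((m + 2 : ℕ) : ℚ) := by
  have h := upper H m hm huv F hF (load_le_maxLoad F)
  have hpos : 0 < maxLoad F := by
    rcases Nat.eq_zero_or_pos (maxLoad F) with h0 | h0
    · rw [h0] at h; omega
    · exact h0
  rw [div_le_iff₀ (by exact_mod_cast hpos)]
  exact_mod_cast h

lemma dom_upper (hm : 1 ≤ m) {u v : W} (huv : H.Adj u v) {n : ℕ}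
    (F : Fin n → Set (W ⊕ (H.edgeSet × Fin m))) (hF : ∀ i, Dominating (attach H m) (F i))
    (hdis : ∀ i j, i ≠ j → Disjoint (F i) (F j)) : n ≤ m + 2 := by
  have h := upper H m hm huv (L := 1) F hF ?_
  · omega
  · intro y
    rw [Set.ncard_le_one_iff]
    intro a b ha hb
    by_contra hne
    exact Set.disjoint_left.mp (hdis a b hne) ha hb

/-- From a family attaining equality to a fractional colouring. -/
lemma frac_of_fdom (hm : 1 ≤ m) (hH : ∀ u, ∃ v, H.Adj u v) {n : ℕ} (hn : 0 < n)
    (F : Fin n → Set (W ⊕ (H.edgeSet × Fin m))) (hF : ∀ i, Dominating (attach H m) (F i))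
    (heq : ((m + 2 : ℕ) : ℚ) = (n : ℚ) / (maxLoad F : ℚ)) : FracColorable H (m + 2) := by
  have hne : maxLoad F ≠ 0 := by
    intro h0
    rw [h0] at heq
    simp only [Nat.cast_zero, div_zero] at heq
    have : (m + 2 : ℕ) = 0 := by exact_mod_cast heq
    omega
  have hn' : n = (m + 2) * maxLoad F := by
    rw [eq_div_iff (by exact_mod_cast hne)] at heq
    exact_mod_cast heq.symm
  obtain ⟨h1, h2⟩ := equality_consequences H m hm hH F hF (load_le_maxLoad F) hn'
  refine ⟨n, fun i => {u | Sum.inl u ∈ F i}, hn, ?_, ?_⟩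
  · intro i u hu v hv huv
    exact h2 i u v huv hu hv
  · intro v
    have := h1 v
    show n ≤ (m + 2) * {i : Fin n | (Sum.inl v : W ⊕ (H.edgeSet × Fin m)) ∈ F i}.ncard
    rw [this]
    exact hn'.le

/-- From a fractional colouring to a family attaining equality. -/
lemma fdom_of_frac [Nonempty W] (hm : 1 ≤ m) (hH : ∀ u, ∃ v, H.Adj u v)
    (hfrac : FracColorable H (m + 2)) :
    ∃ (n : ℕ) (F : Fin n → Set (W ⊕ (H.edgeSet × Fin m))),
      0 < n ∧ (∀ i, Dominating (attach H m) (F i)) ∧
        ((m + 2 : ℕ) : ℚ) = (n : ℚ) / (maxLoad F : ℚ) := by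
  obtain ⟨n, I, hn, hI, hload⟩ := hfrac
  -- trimming: every vertex is kept in exactly `n` of the `n * (m + 2)` copies
  have htrim : ∀ v : W, ∃ T : Finset (Fin n × Fin (m + 2)), (∀ p ∈ T, v ∈ I p.1) ∧ T.card = n := by
    intro v
    have hcard : n ≤ (Finset.univ.filter fun p : Fin n × Fin (m + 2) => v ∈ I p.1).card := by
      have h1 : (Finset.univ.filter fun p : Fin n × Fin (m + 2) => v ∈ I p.1)
          = (Finset.univ.filter fun i : Fin n => v ∈ I i) ×ˢ (Finset.univ : Finset (Fin (m + 2))) := by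
        ext p; simp
      rw [h1, Finset.card_product, Finset.card_univ, Fintype.card_fin, mul_comm, ← load_eq]
      exact hload v
    obtain ⟨T, hT, hTc⟩ := Finset.exists_subset_card_eq hcard
    exact ⟨T, fun p hp => by simpa using hT hp, hTc⟩
  choose T hT hTc using htrim
  have hdisj : ∀ u v, H.Adj u v → Disjoint (T u) (T v) := by
    intro u v huv
    rw [Finset.disjoint_left]
    intro p hpu hpv
    exact hI p.1 u (hT u p hpu) v (hT v p hpv) huv
  let D : (Fin n × Fin (m + 2)) × Fin m → Set (W ⊕ (H.edgeSet × Fin m)) := fun q =>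
    {x | match x with
      | Sum.inl u => q.1 ∈ T u
      | Sum.inr e => e.2 = q.2 ∧ ∀ u ∈ (e.1 : Sym2 W), q.1 ∉ T u}
  have hDl : ∀ q u, (Sum.inl u : W ⊕ (H.edgeSet × Fin m)) ∈ D q ↔ q.1 ∈ T u := fun q u => Iff.rfl
  have hDr : ∀ q e, (Sum.inr e : W ⊕ (H.edgeSet × Fin m)) ∈ D q ↔
      e.2 = q.2 ∧ ∀ u ∈ (e.1 : Sym2 W), q.1 ∉ T u := fun q e => Iff.rfl
  refine value_of_family (attach H m) D ?_ (m + 2) (n * m) (Nat.mul_pos hn hm) (by omega) ?_ ?_
  · -- dominating
    intro q x hx
    rcases x with u | e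
    · obtain ⟨v, huv⟩ := hH u
      by_cases hv : q.1 ∈ T v
      · exact ⟨Sum.inl v, (hDl q v).mpr hv, huv⟩
      · refine ⟨Sum.inr (⟨s(u, v), huv⟩, q.2), (hDr q _).mpr ⟨rfl, ?_⟩, ?_⟩
        · intro w hw
          have hw' : w ∈ s(u, v) := hw
          rw [Sym2.mem_iff] at hw'
          rcases hw' with rfl | rfl
          · exact fun h => hx ((hDl q w).mpr h)
          · exact hv
        · show u ∈ s(u, v)
          exact Sym2.mem_mk_left u v
    · by_cases h : ∀ u ∈ (e.1 : Sym2 W), q.1 ∉ T u
      · have hne : e.2 ≠ q.2 := fun h2 => hx ((hDr q e).mpr ⟨h2, h⟩)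
        exact ⟨Sum.inr (e.1, q.2), (hDr q _).mpr ⟨rfl, h⟩, ⟨rfl, hne⟩⟩
      · push Not at h
        obtain ⟨u, hu, huT⟩ := h
        exact ⟨Sum.inl u, (hDl q u).mpr huT, hu⟩
  · -- loads
    intro x
    rcases x with u | e
    · calc _ = (T u ×ˢ (Finset.univ : Finset (Fin m))).card := by
            congr 1
            ext q
            simp [hDl]
        _ = n * m := by rw [Finset.card_product, hTc, Finset.card_univ, Fintype.card_fin]
    · obtain ⟨⟨e0, he0⟩, j⟩ := e
      induction e0 using Sym2.ind with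
      | _ u v =>
        have huv : H.Adj u v := he0
        calc _ = ((Finset.univ \ (T u ∪ T v)) ×ˢ ({j} : Finset (Fin m))).card := by
              congr 1
              ext q
              simp only [Finset.mem_filter, Finset.mem_univ, true_and, Finset.mem_product,
                Finset.mem_sdiff, Finset.mem_union, Finset.mem_singleton, hDr, Sym2.mem_iff]
              constructor
              · rintro ⟨h2, h3⟩
                exact ⟨fun h4 => h4.elim (h3 u (Or.inl rfl)) (h3 v (Or.inr rfl)), h2.symm⟩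
              · rintro ⟨h2, h3⟩
                refine ⟨h3.symm, ?_⟩
                rintro w (rfl | rfl) h4
                · exact h2 (Or.inl h4)
                · exact h2 (Or.inr h4)
          _ = n * m := by
              rw [Finset.card_product, Finset.card_singleton, mul_one,
                Finset.card_sdiff_of_subset (Finset.subset_univ _),
                Finset.card_union_of_disjoint (hdisj u v huv), hTc, hTc, Finset.card_univ,
                Fintype.card_prod, Fintype.card_fin, Fintype.card_fin]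
              have : n * (m + 2) = n * m + (n + n) := by ring
              omega
  · simp only [Fintype.card_prod, Fintype.card_fin]
    ring

/-- From `m + 2` disjoint dominating sets to a colouring. -/
lemma colorable_of_dom (hm : 1 ≤ m) (hH : ∀ u, ∃ v, H.Adj u v)
    (F : Fin (m + 2) → Set (W ⊕ (H.edgeSet × Fin m))) (hF : ∀ i, Dominating (attach H m) (F i))
    (hdis : ∀ i j, i ≠ j → Disjoint (F i) (F j)) : H.Colorable (m + 2) := by
  have hL : ∀ y, {i : Fin (m + 2) | y ∈ F i}.ncard ≤ 1 := by
    intro y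
    rw [Set.ncard_le_one_iff]
    intro a b ha hb
    by_contra hne
    exact Set.disjoint_left.mp (hdis a b hne) ha hb
  obtain ⟨h1, h2⟩ := equality_consequences H m hm hH F hF hL (by omega)
  have h3 : ∀ u : W, ∃ i, (Sum.inl u : W ⊕ (H.edgeSet × Fin m)) ∈ F i := by
    intro u
    have h4 := h1 u
    rw [Set.ncard_eq_one] at h4
    obtain ⟨i, hi⟩ := h4
    have : i ∈ ({i} : Set (Fin (m + 2))) := rfl
    rw [← hi] at this
    exact ⟨i, this⟩
  choose c hc using h3
  refine ⟨SimpleGraph.Coloring.mk c ?_⟩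
  intro u v huv heq
  exact h2 (c u) u v huv (hc u) (by rw [heq]; exact hc v)

/-- From a colouring to `m + 2` disjoint dominating sets. -/
lemma dom_of_colorable (hH : ∀ u, ∃ v, H.Adj u v) (hc : H.Colorable (m + 2)) :
    ∃ F : Fin (m + 2) → Set (W ⊕ (H.edgeSet × Fin m)),
      (∀ i, Dominating (attach H m) (F i)) ∧ ∀ i j, i ≠ j → Disjoint (F i) (F j) := by
  obtain ⟨c⟩ := hc
  -- the colours missing at an edge
  have hmiss : ∀ e : H.edgeSet, ∃ g : Fin m → Fin (m + 2), Function.Injective g ∧
      ∀ i, (∃ j, g j = i) ↔ ∀ u ∈ (e : Sym2 W), c u ≠ i := by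
    rintro ⟨e0, he0⟩
    induction e0 using Sym2.ind with
    | _ u v =>
      have huv : H.Adj u v := he0
      have hne : c u ≠ c v := c.valid huv
      have hcard : (Finset.univ \ {c u, c v} : Finset (Fin (m + 2))).card = m := by
        rw [Finset.card_sdiff_of_subset (Finset.subset_univ _), Finset.card_pair hne,
          Finset.card_univ, Fintype.card_fin]
        omega
      let f := (Finset.univ \ {c u, c v} : Finset (Fin (m + 2))).equivFinOfCardEq hcard
      refine ⟨fun j => (f.symm j : Fin (m + 2)), ?_, ?_⟩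
      · intro a b h
        exact f.symm.injective (Subtype.ext h)
      · intro i
        constructor
        · rintro ⟨j, rfl⟩ w hw
          have h5 := (f.symm j).2
          simp only [Finset.mem_sdiff, Finset.mem_univ, true_and, Finset.mem_insert,
            Finset.mem_singleton, not_or] at h5
          have hw' : w ∈ s(u, v) := hw
          rw [Sym2.mem_iff] at hw'
          rcases hw' with rfl | rfl
          · exact fun h => h5.1 h.symm
          · exact fun h => h5.2 h.symm
        · intro h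
          have h6 : i ∈ (Finset.univ \ {c u, c v} : Finset (Fin (m + 2))) := by
            simp only [Finset.mem_sdiff, Finset.mem_univ, true_and, Finset.mem_insert,
              Finset.mem_singleton, not_or]
            exact ⟨fun h7 => h u (Sym2.mem_mk_left u v) h7.symm,
              fun h7 => h v (Sym2.mem_mk_right u v) h7.symm⟩
          exact ⟨f ⟨i, h6⟩, by simp⟩
  choose g hg1 hg2 using hmiss
  let F : Fin (m + 2) → Set (W ⊕ (H.edgeSet × Fin m)) := fun i =>
    {x | match x with
      | Sum.inl u => c u = i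
      | Sum.inr e => g e.1 e.2 = i}
  have hFl : ∀ i u, (Sum.inl u : W ⊕ (H.edgeSet × Fin m)) ∈ F i ↔ c u = i := fun i u => Iff.rfl
  have hFr : ∀ i e, (Sum.inr e : W ⊕ (H.edgeSet × Fin m)) ∈ F i ↔ g e.1 e.2 = i :=
    fun i e => Iff.rfl
  refine ⟨F, ?_, ?_⟩
  · intro i x hx
    rcases x with u | e
    · obtain ⟨v, huv⟩ := hH u
      by_cases hv : c v = i
      · exact ⟨Sum.inl v, (hFl i v).mpr hv, huv⟩
      · have h7 : ∀ w ∈ ((⟨s(u, v), huv⟩ : H.edgeSet) : Sym2 W), c w ≠ i := by
          intro w hw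
          have hw' : w ∈ s(u, v) := hw
          rw [Sym2.mem_iff] at hw'
          rcases hw' with rfl | rfl
          · exact fun h => hx ((hFl i w).mpr h)
          · exact hv
        obtain ⟨j, hj⟩ := (hg2 ⟨s(u, v), huv⟩ i).mpr h7
        exact ⟨Sum.inr (⟨s(u, v), huv⟩, j), (hFr i _).mpr hj, Sym2.mem_mk_left u v⟩
    · by_cases h : ∀ u ∈ (e.1 : Sym2 W), c u ≠ i
      · obtain ⟨j, hj⟩ := (hg2 e.1 i).mpr h
        have hne : e.2 ≠ j := by
          intro h2
          exact hx ((hFr i e).mpr (by rw [h2]; exact hj))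
        exact ⟨Sum.inr (e.1, j), (hFr i _).mpr hj, ⟨rfl, hne⟩⟩
      · push Not at h
        obtain ⟨u, hu, huc⟩ := h
        exact ⟨Sum.inl u, (hFl i u).mpr huc, hu⟩
  · intro i j hij
    rw [Set.disjoint_left]
    intro x hx hx'
    rcases x with u | e
    · exact hij (((hFl i u).mp hx).symm.trans ((hFl j u).mp hx'))
    · exact hij (((hFr i e).mp hx).symm.trans ((hFr j e).mp hx'))

/-- The new vertices have degree `m + 1`. -/
lemma degree_new (e : H.edgeSet) (j : Fin m) :
    ((attach H m).neighborSet (Sum.inr (e, j))).ncard = m + 1 := by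
  obtain ⟨e0, he0⟩ := e
  induction e0 using Sym2.ind with
  | _ u v =>
    have huv : H.Adj u v := he0
    have h1 : (attach H m).neighborSet (Sum.inr (⟨s(u, v), he0⟩, j))
        = ((nbhd H m ⟨s(u, v), he0⟩ u v).erase (Sum.inr (⟨s(u, v), he0⟩, j)) : Finset _) := by
      ext x
      rw [Finset.mem_coe, Finset.mem_erase, mem_nbhd]
      rcases x with w | p
      · constructor
        · intro h
          have hw : w ∈ s(u, v) := h
          rw [Sym2.mem_iff] at hw
          refine ⟨by simp, ?_⟩
          rcases hw with rfl | rfl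
          · exact Or.inl rfl
          · exact Or.inr (Or.inl rfl)
        · rintro ⟨-, h | h | ⟨k, h⟩⟩
          · show w ∈ s(u, v)
            rw [Sum.inl.inj h]
            exact Sym2.mem_mk_left u v
          · show w ∈ s(u, v)
            rw [Sum.inl.inj h]
            exact Sym2.mem_mk_right u v
          · cases h
      · constructor
        · intro h
          have hp : (⟨s(u, v), he0⟩ : H.edgeSet) = p.1 ∧ j ≠ p.2 := h
          refine ⟨?_, Or.inr (Or.inr ⟨p.2, ?_⟩)⟩
          · intro h2
            have := Sum.inr.inj h2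
            exact hp.2 (by rw [this])
          · rw [hp.1]
        · rintro ⟨h0, h | h | ⟨k, h⟩⟩
          · cases h
          · cases h
          · have h2 := Sum.inr.inj h
            subst h2
            refine ⟨rfl, fun h3 => h0 ?_⟩
            have h4 : j = k := h3
            rw [h4]
    rw [h1, Set.ncard_coe_finset, Finset.card_erase_of_mem, card_nbhd H m huv.ne]
    · rfl
    · exact (mem_nbhd H m).mpr (Or.inr (Or.inr ⟨j, rfl⟩))

/-- The old vertices have degree at least `m + 1`. -/
lemma degree_old [Finite W] {u v : W} (huv : H.Adj u v) :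
    m + 1 ≤ ((attach H m).neighborSet (Sum.inl u)).ncard := by
  have h1 : (((nbhd H m ⟨s(u, v), huv⟩ u v).erase (Sum.inl u) : Finset _) : Set _)
      ⊆ (attach H m).neighborSet (Sum.inl u) := by
    intro x hx
    rw [Finset.mem_coe, Finset.mem_erase, mem_nbhd] at hx
    obtain ⟨h0, h | h | ⟨j, h⟩⟩ := hx
    · exact absurd h h0
    · subst h; exact huv
    · subst h; exact Sym2.mem_mk_left u v
  have h2 := Set.ncard_le_ncard h1 (Set.toFinite _)
  rw [Set.ncard_coe_finset, Finset.card_erase_of_mem, card_nbhd H m huv.ne] at h2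
  · exact h2
  · exact (mem_nbhd H m).mpr (Or.inl rfl)

end

/-- Let `m ≥ 1` and `δ = m + 1`. For every finite graph `H` without isolated vertices, the graph
`attach H m` has minimum degree `δ`; its fractional domatic number is `δ + 1` if and only if the
fractional chromatic number of `H` is at most `δ + 1`; and its domatic number is `δ + 1` if and
only if the chromatic number of `H` is at most `δ + 1`. -/
theorem result (m : ℕ) (hm : 1 ≤ m) (W : Type) [Finite W] [Nonempty W] (H : SimpleGraph W)
    (hH : ∀ u, ∃ v, H.Adj u v) :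
    IsMinDegree (attach H m) (m + 1) ∧
      (IsFDOM (attach H m) ((m + 1 : ℕ) + 1) ↔ FracColorable H (m + 2)) ∧
      (IsDom (attach H m) (m + 1 + 1) ↔ H.Colorable (m + 2)) := by
  obtain ⟨u0⟩ := ‹Nonempty W›
  have : Nonempty W := ⟨u0⟩
  obtain ⟨v0, h0⟩ := hH u0
  have hcast : (((m + 1 : ℕ) : ℚ) + 1) = ((m + 2 : ℕ) : ℚ) := by push_cast; ring
  refine ⟨⟨⟨Sum.inr (⟨s(u0, v0), h0⟩, ⟨0, hm⟩), (degree_new H m _ _).symm⟩, ?_⟩, ?_, ?_⟩
  · rintro _ ⟨x, rfl⟩
    rcases x with u | e
    · obtain ⟨v, huv⟩ := hH u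
      exact degree_old H m huv
    · exact (degree_new H m e.1 e.2).ge
  · rw [hcast]
    constructor
    · rintro ⟨⟨n, F, hn, hF, heq⟩, -⟩
      exact frac_of_fdom H m hm hH hn F hF heq
    · intro h
      refine ⟨fdom_of_frac H m hm hH h, ?_⟩
      rintro _ ⟨n, F, hn, hF, rfl⟩
      exact fdom_upper H m hm h0 hn F hF
  · constructor
    · rintro ⟨⟨F, hF, hdis⟩, -⟩
      exact colorable_of_dom H m hm hH F hF hdis
    · intro h
      refine ⟨dom_of_colorable H m hH h, ?_⟩
      rintro n ⟨F, hF, hdis⟩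
      exact dom_upper H m hm h0 F hF hdis

end Pool.Agent.Results.MP_64dcad_co.FractionalColouring
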