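import Mathlib
import Pool.Agent.helper13.FD.Final

set_option autoImplicit false

/-!
# MP_64dcad_co: `FDOM(G) = δ + 1` does not imply `dom(G) = δ + 1`, even for regular graphs

The problem file quotes as known that a `δ`-regular graph has `FDOM = δ + 1` iff it has
`dom = δ + 1`. This is false: for example the odd graph `K(7, 3)` is 4-regular and vertex
transitive, the Fano plane is a perfect code in it, so `FDOM = 35 / 7 = 5`, while `dom = 5` would
need a partition of the 35 triples into five Fano planes. Here we show that it fails in every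
degree `δ ≥ 3`.
-/

namespace Pool.Agent.Results.MP_64dcad_co.GapInEveryDegree

open Pool.Agent.helper13.FD

/-- For every `δ ≥ 2` there is a finite graph `G` with minimum degree `δ`, `FDOM(G) = δ + 1` and
`dom(G) ≤ δ`. For `δ ≥ 3` it can be chosen `δ`-regular. -/
theorem result (δ : ℕ) (hδ : 2 ≤ δ) :
    ∃ (W : Type) (_ : Fintype W) (_ : DecidableEq W) (G : SimpleGraph W) (_ : DecidableRel G.Adj),
      G.minDegree = δ ∧ (3 ≤ δ → G.IsRegularOfDegree δ) ∧ HasFDom G ((δ + 1 : ℕ) : ℚ) ∧
        ∃ k ≤ δ, HasDom G k :=
  exists_gap δ hδ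

end Pool.Agent.Results.MP_64dcad_co.GapInEveryDegree
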