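import Mathlib
import Pool.Agent.helper13.FD.Final

set_option autoImplicit false

/-!
# MP_64dcad_co: characterisation when closed neighbourhoods contain minimum ones
-/

namespace Pool.Agent.Results.MP_64dcad_co.NestedClosedNeighbourhoods

open Pool.Agent.helper13.FD

/-- Let every closed neighbourhood of `G` contain the closed neighbourhood of a vertex of degree
`δ` (for example let `G` be `δ`-regular). Then `FDOM(G) = δ + 1` iff `χ_f(G*) ≤ δ + 1` and
`dom(G) = δ + 1` iff `χ(G*) ≤ δ + 1`, where two vertices are joined in `G* = lowSquare δ G` iff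
they lie in the closed neighbourhood of one vertex of degree `δ`. -/
theorem result (V : Type) [Fintype V] [DecidableEq V] [Nonempty V] (G : SimpleGraph V)
    [DecidableRel G.Adj] (δ : ℕ)
    (hG : ∀ w, ∃ x, G.degree x = δ ∧ ∀ u, (u = x ∨ G.Adj x u) → (u = w ∨ G.Adj w u)) :
    (HasFDom G ((δ + 1 : ℕ) : ℚ) ↔ FracColorable (lowSquare δ G) (δ + 1)) ∧
    (HasDom G (δ + 1) ↔ (lowSquare δ G).Colorable (δ + 1)) :=
  ⟨low_hasFDom G hG, low_hasDom G hG⟩

end Pool.Agent.Results.MP_64dcad_co.NestedClosedNeighbourhoods
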