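import Mathlib
import Pool.Agent.helper13.FD.Final

set_option autoImplicit false

/-!
# MP_64dcad_co: the regular graphs with `FDOM(G) = δ + 1` encode fractional colourability
-/

namespace Pool.Agent.Results.MP_64dcad_co.RegularEncodesFracColouring

open Pool.Agent.helper13.FD

/-- For every `δ = d + 3 ≥ 3`, every finite graph `H` and every cyclic permutation `σ` of its
vertices, the graph `gadget d σ H` is `δ`-regular, `dom = δ + 1` holds for it iff
`χ(H) ≤ δ + 1`, and `FDOM = δ + 1` holds for it iff `χ_f(H) ≤ δ + 1`. For the product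
`H □ K_{δ+1}` in place of `H` both equalities are equivalent to `χ(H) ≤ δ + 1`. -/
theorem result (d : ℕ) (V : Type) [Fintype V] [DecidableEq V] [Nonempty V] (H : SimpleGraph V) :
    (∀ σ : Equiv.Perm V, σ.IsCycleOn Set.univ →
      (∀ (p : (V × V × Fin 3) × Fin (d + 4)) [Fintype ((gadget d σ H).neighborSet p)],
        (gadget d σ H).degree p = d + 3) ∧
      (HasDom (gadget d σ H) (d + 4) ↔ H.Colorable (d + 4)) ∧
      (HasFDom (gadget d σ H) ((d + 4 : ℕ) : ℚ) ↔ FracColorable H (d + 4))) ∧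
    (∀ τ : Equiv.Perm (V × Fin (d + 4)), τ.IsCycleOn Set.univ →
      (HasDom (gadget d τ (H □ (⊤ : SimpleGraph (Fin (d + 4))))) (d + 4) ↔
        H.Colorable (d + 4)) ∧
      (HasFDom (gadget d τ (H □ (⊤ : SimpleGraph (Fin (d + 4))))) ((d + 4 : ℕ) : ℚ) ↔
        H.Colorable (d + 4))) := by
  refine ⟨fun σ hσ => ⟨fun p _ => gadget_regular σ H p, gadget_hasDom H hσ, gadget_hasFDom H hσ⟩,
    fun τ hτ => ⟨?_, ?_⟩⟩
  · rw [gadget_hasDom _ hτ]
    exact colorable_boxProd_iff H (d + 3)
  · rw [gadget_hasFDom _ hτ]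
    exact fracColorable_boxProd_iff H (d + 3)

end Pool.Agent.Results.MP_64dcad_co.RegularEncodesFracColouring
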